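import Pool.Agent.Lib.MP_d8b51b_an.Final

set_option autoImplicit false

/-!
# MP_d8b51b_an: the injectivity radius of locally quasiconformal maps is dimension-free

For `k > 1` let `Q'_k` be the class of all maps `f : Bⁿ → ℝⁿ` of the unit ball that are
quasiconformal on a neighbourhood of each point, with coefficient of quasiconformality
`k_f = ess sup ‖f'(x)‖ ‖f'(x)⁻¹‖ < k`.  We prove that the injectivity radius of these maps has a
positive lower bound that does not depend on the dimension `n ≥ 3`: `R(k) > 0` for every `k > 1`.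
-/

namespace Pool.Agent.Results.MP_d8b51b_an.DimensionFreeRadius

open MeasureTheory Metric Set
open scoped ENNReal

/-- Euclidean space `ℝⁿ` -/
abbrev E (n : ℕ) := EuclideanSpace ℝ (Fin n)

/-- the open unit ball `Bⁿ` -/
def unitBall (n : ℕ) : Set (E n) := ball 0 1

/-- the property `P` holds at almost every point of `U` -/
def AEIn {n : ℕ} (U : Set (E n)) (P : E n → Prop) : Prop := ∀ᵐ x : E n, x ∈ U → P x

/-- the operator norm `‖f'(x)‖` of the derivative -/
noncomputable def derivNorm {n : ℕ} (f : E n → E n) (x : E n) : ℝ := ‖fderiv ℝ f x‖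

/-- the operator norm `‖f'(x)⁻¹‖` of the inverse of the derivative -/
noncomputable def derivInvNorm {n : ℕ} (f : E n → E n) (x : E n) : ℝ := ‖(fderiv ℝ f x).inverse‖

/-- the Jacobian `det f'(x)` -/
noncomputable def jacobian {n : ℕ} (f : E n → E n) (x : E n) : ℝ := (fderiv ℝ f x).det

/-- `f` is differentiable at `x` and `‖f'(x)‖ⁿ ≤ K |det f'(x)|` -/
def DistortionAt {n : ℕ} (K : ℝ) (f : E n → E n) (x : E n) : Prop :=
  DifferentiableAt ℝ f x ∧ derivNorm f x ^ n ≤ K * |jacobian f x|

/-- `f` is differentiable at `x` with invertible derivative -/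
def InvertibleAt {n : ℕ} (f : E n → E n) (x : E n) : Prop :=
  DifferentiableAt ℝ f x ∧ jacobian f x ≠ 0

/-- `f` is absolutely continuous on almost every line segment in `U` that is parallel to a
coordinate axis. -/
def ACL {n : ℕ} (U : Set (E n)) (f : E n → E n) : Prop :=
  ∀ i : Fin n, ∀ᵐ x : E n, ∀ a b : ℝ,
    (∀ s ∈ uIcc a b, x + s • EuclideanSpace.single i (1 : ℝ) ∈ U) →
    AbsolutelyContinuousOnInterval (fun s : ℝ => f (x + s • EuclideanSpace.single i (1 : ℝ))) a b

/-- `f` is a quasiconformal map of the open set `U ⊆ ℝⁿ` (analytic definition): a homeomorphism of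
`U` onto an open subset of `ℝⁿ`, absolutely continuous on almost every line segment in `U` parallel
to a coordinate axis, differentiable almost everywhere in `U`, and `‖f'‖ⁿ ≤ K |det f'|` almost
everywhere in `U` for some constant `K`. -/
structure QuasiconformalOn (n : ℕ) (U : Set (E n)) (f : E n → E n) : Prop where
  isOpen : IsOpen U
  isOpenEmbedding : Topology.IsOpenEmbedding (U.domRestrict f)
  acl : ACL U f
  quasi : ∃ K : ℝ, AEIn U (DistortionAt K f)

/-- the coefficient of quasiconformality `k_f = ess sup_{x ∈ Bⁿ} ‖f'(x)‖ ‖f'(x)⁻¹‖` -/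
noncomputable def coeffQc (n : ℕ) (f : E n → E n) : ℝ≥0∞ :=
  essSup (fun x => ENNReal.ofReal (derivNorm f x * derivInvNorm f x))
    (volume.restrict (unitBall n))

/-- the class `Q'_k` of the maps of the unit ball `Bⁿ` to `ℝⁿ` that are quasiconformal on a
neighbourhood of each point (then they are differentiable almost everywhere with invertible
derivative), with `k_f < k` -/
structure QPrime (n : ℕ) (k : ℝ) (f : E n → E n) : Prop where
  loc_qc : ∀ x ∈ unitBall n, ∃ U ⊆ unitBall n, x ∈ U ∧ QuasiconformalOn n U f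
  invertible : AEIn (unitBall n) (InvertibleAt f)
  coeff_lt : coeffQc n f < ENNReal.ofReal k

/-- the injectivity radius `r_f ∈ (0, 1]`: the supremum of the radii `ρ ≤ 1` such that `f` is
injective on the ball `{|x| < ρ}` -/
noncomputable def injRadius (n : ℕ) (f : E n → E n) : ℝ :=
  sSup {ρ : ℝ | 0 < ρ ∧ ρ ≤ 1 ∧ InjOn f (ball 0 ρ)}

/-- `r(n, k) = inf_{f ∈ Q'_k} r_f` -/
noncomputable def classRadius (n : ℕ) (k : ℝ) : ℝ :=
  sInf {r : ℝ | ∃ f : E n → E n, QPrime n k f ∧ r = injRadius n f}

/-- `R(k) = inf_{n ≥ 3} r(n, k)` -/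
noncomputable def dimFreeRadius (k : ℝ) : ℝ :=
  sInf {r : ℝ | ∃ n : ℕ, 3 ≤ n ∧ r = classRadius n k}

lemma coeffQc_eq (n : ℕ) (f : E n → E n) : coeffQc n f = Lib.MPd8b51b.coeffQc n f := by
  unfold coeffQc Lib.MPd8b51b.coeffQc unitBall
  congr 1
  ext x
  unfold derivNorm derivInvNorm
  rw [ENNReal.ofReal_mul (norm_nonneg _), ofReal_norm, ofReal_norm]

lemma qPrime_iff (n : ℕ) (k : ℝ) (f : E n → E n) :
    QPrime n k f ↔ Lib.MPd8b51b.QPrime n k f := by
  constructor
  · intro H
    refine ⟨fun x hx => ?_, H.invertible, by rw [← coeffQc_eq]; exact H.coeff_lt⟩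
    obtain ⟨U, hU, hxU, h⟩ := H.loc_qc x hx
    exact ⟨U, hU, hxU, h.isOpen, h.isOpenEmbedding, h.acl, h.quasi⟩
  · intro H
    refine ⟨fun x hx => ?_, H.invertible, by rw [coeffQc_eq]; exact H.coeff_lt⟩
    obtain ⟨U, hU, hxU, h⟩ := H.loc_qc x hx
    exact ⟨U, hU, hxU, h.isOpen, h.isOpenEmbedding, h.acl, h.quasi⟩

lemma dimFreeRadius_eq (k : ℝ) : dimFreeRadius k = Lib.MPd8b51b.dimFreeRadius k := by
  have h1 : ∀ n, classRadius n k = Lib.MPd8b51b.classRadius n k := by
    intro n
    unfold classRadius Lib.MPd8b51b.classRadius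
    congr 1
    ext r
    exact exists_congr fun f => and_congr (qPrime_iff n k f) Iff.rfl
  unfold dimFreeRadius Lib.MPd8b51b.dimFreeRadius
  simp only [h1]

/-- **The dimension-free injectivity radius is positive**: `R(k) > 0` for every `k > 1`. -/
theorem result : ∀ k : ℝ, 1 < k → 0 < dimFreeRadius k := by
  intro k hk
  rw [dimFreeRadius_eq]
  exact Lib.MPd8b51b.dimFreeRadius_pos_final k hk

end Pool.Agent.Results.MP_d8b51b_an.DimensionFreeRadius
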